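import Pool.Agent.Helper70.BN.St3

/-!
# Project BN (MP_a2f62e_al), module NGEO: words of minimal length
-/

set_option autoImplicit false

namespace Pool.Agent.Helper22.BN

open Pool.Agent.Helper70.BN Pool.Agent.Helper75.MX

section aux

variable {Q : Type} [Group Q] {l : ℕ} {B N : Subgroup Q} {n : Fin l → Q} {q : Fin l → ℕ}

theorem nw_cons (n : Fin l → Q) (i : Fin l) (u : List (Fin l)) : nw n (i :: u) = n i * nw n u := by
  simp [nw]

theorem nw_nil (n : Fin l → Q) : nw n ([] : List (Fin l)) = 1 := by simp [nw]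

theorem nw_mem (h : BNpair B N n q) (u : List (Fin l)) : nw n u ∈ N := by
  induction u with
  | nil => rw [nw_nil]; exact N.one_mem
  | cons i u ih => rw [nw_cons]; exact N.mul_mem (h.mem i) ih

theorem geo_tail {i : Fin l} {u : List (Fin l)} (h : Geo B n (i :: u)) : Geo B n u := by
  intro v hv
  have h1 := h (i :: v) (by
    rw [nw_cons, nw_cons]
    have e : (n i * nw n v)⁻¹ * (n i * nw n u) = (nw n v)⁻¹ * nw n u := by group
    rwa [e])
  simpa using h1

theorem dc_mul_left {w x b : Q} (hb : b ∈ B) (h : DC B w x) : DC B w (b * x) := by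
  obtain ⟨b1, h1, b2, h2, rfl⟩ := h
  exact ⟨b * b1, B.mul_mem hb h1, b2, h2, by group⟩

theorem dc_mul_right {w x b : Q} (hb : b ∈ B) (h : DC B w x) : DC B w (x * b) := by
  obtain ⟨b1, h1, b2, h2, rfl⟩ := h
  exact ⟨b1, h1, b2 * b, B.mul_mem h2 hb, by group⟩

/-- if `n_i` is not in `B`, then `nw u` and `n_i nw u` are in different double cosets -/
theorem dc_ne (hNBRU : StNBRU) (h : BNpair B N n q) {i : Fin l} (hi : n i ∉ B) (u : List (Fin l)) {x : Q}
    (h1 : DC B (nw n u) x) (h2 : DC B (nw n (i :: u)) x) : False := by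
  obtain ⟨b1, hb1, b2, hb2, rfl⟩ := h1
  obtain ⟨b3, hb3, b4, hb4, e⟩ := h2
  have h3 : DC B (nw n u) (nw n (i :: u)) := by
    refine ⟨b3⁻¹ * b1, B.mul_mem (B.inv_mem hb3) hb1, b2 * b4⁻¹, B.mul_mem hb2 (B.inv_mem hb4), ?_⟩
    have e1 : nw n (i :: u) = b3⁻¹ * (b3 * nw n (i :: u) * b4) * b4⁻¹ := by group
    rw [e1, ← e]
    group
  have h4 := hNBRU Q l B N n q h _ (nw_mem h u) _ (nw_mem h (i :: u)) h3
  apply hi
  have h5 := h.norm (nw n u) (nw_mem h u) _ h4
    (N.mul_mem (N.inv_mem (nw_mem h u)) (nw_mem h (i :: u)))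
  rw [nw_cons] at h5
  have e2 : nw n u * ((nw n u)⁻¹ * (n i * nw n u)) * (nw n u)⁻¹ = n i := by group
  rwa [e2] at h5

end aux

theorem hNGEO (hNBRU : StNBRU) (hNPRD : StNPRD) : StNGEO := by
  intro Q _ _ l B N n q h u
  obtain ⟨hnB, hprd⟩ := hNPRD Q l B N n q h
  induction u with
  | nil =>
    intro _
    constructor
    · intro x hx
      have hx' : x ∈ B := hx
      exact ⟨x, hx', 1, B.one_mem, by rw [nw_nil]; group⟩
    · have e : Nat.card {x : Q // DC B (nw n ([] : List (Fin l))) x} = Nat.card B := by
        apply Nat.card_congr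
        refine Equiv.subtypeEquivRight ?_
        intro x
        constructor
        · rintro ⟨b, hb, b', hb', rfl⟩
          rw [nw_nil, mul_one]
          exact B.mul_mem hb hb'
        · intro hx
          exact ⟨x, hx, 1, B.one_mem, by rw [nw_nil]; group⟩
      rw [e]
      simp
  | cons i u ih =>
    intro hg
    have hgu := geo_tail hg
    obtain ⟨ih1, ih2⟩ := ih hgu
    have hP : ∀ b ∈ B, DC B (nw n (i :: u)) (n i * b * nw n u) := by
      apply hprd u i hgu
      intro v hv
      have h1 := hg v hv
      simp only [List.length_cons] at h1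
      omega
    have hP2 : ∀ b ∈ B, ∀ y, DC B (nw n u) y → DC B (nw n (i :: u)) (b * n i * y) := by
      intro b hb y hy
      obtain ⟨b1, hb1, b2, hb2, rfl⟩ := hy
      have h1 := dc_mul_right hb2 (dc_mul_left hb (hP b1 hb1))
      have e : b * (n i * b1 * nw n u) * b2 = b * n i * (b1 * nw n u * b2) := by group
      rwa [e] at h1
    constructor
    · intro x hx
      rw [List.map_cons] at hx
      obtain ⟨b, hb, y, hy, rfl⟩ := hx
      exact hP2 b hb y (ih1 y hy)
    · -- counting
      let D := {b : B // (n i)⁻¹ * b * n i ∈ B}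
      let C := {x : Q // DC B (nw n u) x}
      let C' := {x : Q // DC B (nw n (i :: u)) x}
      let f : B × C → C' := fun p => ⟨(p.1 : Q) * n i * p.2.1, hP2 _ p.1.2 _ p.2.2⟩
      -- surjectivity
      have hsurj : ∀ z : C', ∃ p, f p = z := by
        rintro ⟨z, b, hb, b', hb', rfl⟩
        refine ⟨(⟨b, hb⟩, ⟨nw n u * b', 1, B.one_mem, b', hb', by group⟩), ?_⟩
        apply Subtype.ext
        show b * n i * (nw n u * b') = b * nw n (i :: u) * b'
        rw [nw_cons]
        group
      -- the key point
      have hkey : ∀ c ∈ B, ∀ y y' : Q, DC B (nw n u) y → DC B (nw n u) y' → y' = (n i)⁻¹ * c * n i * y →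
          (n i)⁻¹ * c * n i ∈ B := by
        intro c hc y y' hy hy' e
        by_contra hcon
        have hsq : (n i * n i)⁻¹ ∈ B := B.inv_mem (h.sq i)
        rcases h.ax i c hc (n i) (h.mem i) with h1 | h1
        · obtain ⟨b1, hb1, b2, hb2, e1⟩ := h1
          have e2 : y' = ((n i * n i)⁻¹ * b1) * n i * (b2 * y) := by
            rw [e]
            have e3 : (n i)⁻¹ * c * n i = (n i * n i)⁻¹ * (n i * c * n i) := by group
            rw [e3, e1]
            group
          have h2 : DC B (nw n (i :: u)) y' := by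
            rw [e2]
            exact hP2 _ (B.mul_mem hsq hb1) _ (dc_mul_left hb2 hy)
          exact dc_ne hNBRU h (hnB i) u hy' h2
        · obtain ⟨b1, hb1, b2, hb2, e1⟩ := h1
          apply hcon
          have e3 : (n i)⁻¹ * c * n i = (n i * n i)⁻¹ * (n i * c * n i) := by group
          rw [e3, e1]
          exact B.mul_mem hsq (B.mul_mem (B.mul_mem hb1 (h.sq i)) hb2)
      -- fibres
      have hfib : ∀ z : C', Nat.card {p : B × C // f p = z} = Nat.card D := by
        intro z
        obtain ⟨⟨b0, y0⟩, hz⟩ := hsurj z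
        have hz' : (z : Q) = (b0 : Q) * n i * y0.1 := by rw [← hz]
        apply Nat.card_congr
        refine
          { toFun := fun p => ⟨p.1.1⁻¹ * b0, ?_⟩
            invFun := fun c => ⟨(b0 * c.1⁻¹, ⟨((n i)⁻¹ * (c.1 : Q) * n i) * y0.1, ?_⟩), ?_⟩
            left_inv := ?_
            right_inv := ?_ }
        · have hp := congrArg Subtype.val p.2
          have hp' : ((p.1.1 : B) : Q) * n i * p.1.2.1 = (b0 : Q) * n i * y0.1 := by
            rw [← hz']; exact hp
          refine hkey _ (p.1.1⁻¹ * b0).2 y0.1 p.1.2.1 y0.2 p.1.2.2 ?_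
          push_cast
          have e1 : p.1.2.1 = (n i)⁻¹ * ((p.1.1 : B) : Q)⁻¹ * (((p.1.1 : B) : Q) * n i * p.1.2.1) := by group
          rw [e1, hp']
          group
        · exact dc_mul_left c.2 y0.2
        · apply Subtype.ext
          rw [hz']
          show ((b0 * c.1⁻¹ : B) : Q) * n i * (((n i)⁻¹ * (c.1 : Q) * n i) * y0.1) = _
          push_cast
          group
        · intro p
          obtain ⟨⟨b', y'⟩, hp⟩ := p
          have hp1 := congrArg Subtype.val hp
          have hp' : ((b' : B) : Q) * n i * y'.1 = (b0 : Q) * n i * y0.1 := by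
            rw [← hz']; exact hp1
          apply Subtype.ext
          apply Prod.ext
          · show b0 * (b'⁻¹ * b0)⁻¹ = b'
            group
          · apply Subtype.ext
            show ((n i)⁻¹ * ((b'⁻¹ * b0 : B) : Q) * n i) * y0.1 = y'.1
            push_cast
            have e1 : y'.1 = (n i)⁻¹ * ((b' : B) : Q)⁻¹ * (((b' : B) : Q) * n i * y'.1) := by group
            rw [e1, hp']
            group
        · intro c
          apply Subtype.ext
          show (b0 * c.1⁻¹)⁻¹ * b0 = c.1
          group
      have hcount : Nat.card (B × C) = Nat.card C' * Nat.card D := by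
        haveI : Fintype C' := Fintype.ofFinite C'
        rw [← Nat.card_congr (Equiv.sigmaFiberEquiv f), Nat.card_sigma, Finset.sum_congr rfl (fun z _ => hfib z),
          Finset.sum_const, smul_eq_mul, Finset.card_univ, Nat.card_eq_fintype_card (α := C')]
      have hD : 0 < Nat.card D := by
        haveI : Nonempty D := ⟨⟨1, by
          show (n i)⁻¹ * ((1 : B) : Q) * n i ∈ B
          rw [Subgroup.coe_one, mul_one, inv_mul_cancel]
          exact B.one_mem⟩⟩
        exact Nat.card_pos
      have hpar := (h.par i).2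
      rw [Nat.card_prod] at hcount
      have ih2' : Nat.card C = Nat.card B * (u.map q).prod := ih2
      have hpar' : q i * Nat.card D = Nat.card B := hpar
      show Nat.card C' = Nat.card B * ((i :: u).map q).prod
      rw [List.map_cons, List.prod_cons]
      apply Nat.eq_of_mul_eq_mul_right hD
      rw [← hcount, ih2']
      calc Nat.card B * (Nat.card B * (u.map q).prod)
          = Nat.card B * (q i * Nat.card D * (u.map q).prod) := by rw [hpar']
        _ = Nat.card B * (q i * (u.map q).prod) * Nat.card D := by ring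

end Pool.Agent.Helper22.BN
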